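import Pool.Agent.Lib.MP_6bc78b_nt.MS.QZ.Iface2

/-! Project MS, Part QZ, third file (QG): the Gaussian form of the pointwise bound.
Statements of the modules; proofs: Paper3.md. -/

set_option autoImplicit false

open Complex Filter Topology MeasureTheory ArithmeticFunction

namespace Pool.Agent.Lib.MP_6bc78b_nt.MS.QZ

open Pool.Agent.Lib.MP_6bc78b_nt.MS Pool.Agent.Lib.MP_6bc78b_nt.MS.P1

/-- Short real coefficients of size at most `T^3`. -/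
def Adm (T : ℝ) (f : ArithmeticFunction ℝ) : Prop :=
  ∀ n : ℕ, |f n| ≤ T ^ (3 : ℝ) ∧ (f n ≠ 0 → (n : ℝ) ≤ T ^ (1 / 4 : ℝ))

/-- The length of the short polynomials. -/
noncomputable def NQ (T : ℝ) : ℕ := ⌊T ^ (1 / 4 : ℝ)⌋₊

/-- The short Dirichlet polynomial with coefficients `f`. -/
noncomputable def DQ (T : ℝ) (f : ArithmeticFunction ℝ) (s : ℂ) : ℂ := dpoly f (T ^ (1 / 4 : ℝ)) s

/-- The prime sum over the first block at `1/2 + iγ`. -/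
noncomputable def P0 (T γ : ℝ) : ℂ := PS (SS T 0) (1 / 2 + γ * I)

/-- The normalized prime sum. -/
noncomputable def X0 (T γ : ℝ) : ℝ := -(P0 T γ).re / Real.sqrt (ll T / 2)

/-- The moments of the normal distribution. -/
noncomputable def gm (k : ℕ) : ℝ :=
  if Even k then (k.factorial : ℝ) / (2 ^ (k / 2) * ((k / 2).factorial : ℝ)) else 0

/-- The tail of the normal distribution. -/
noncomputable def Qf (x : ℝ) : ℝ :=
  (Real.sqrt (2 * Real.pi))⁻¹ * ∫ u in Set.Ioi x, Real.exp (-(u ^ 2 / 2))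

/-- MVL: mean values of short polynomials on the critical line. -/
def MvlStatement : Prop := ∃ T0 : ℝ, 3 < T0 ∧ ∀ T : ℝ, T0 ≤ T →
  ∀ f g : ArithmeticFunction ℝ, Adm T f → Adm T g →
    Integrable (fun t : ℝ => (DQ T f (1 / 2 + t * I) *
      (starRingEnd ℂ) (DQ T g (1 / 2 + t * I))).re * wt T t) ∧
    |(1 / (2 * Real.pi)) * (∫ t : ℝ, (DQ T f (1 / 2 + t * I) *
      (starRingEnd ℂ) (DQ T g (1 / 2 + t * I))).re * wt T t) -
      cG T * ∑ n ∈ Finset.Icc 1 (NQ T), f n * g n / (n : ℝ)| ≤ 1 / T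

/-- SMV (needs RH): mean values of short polynomials over the zeros. -/
def SmvStatement : Prop := ∃ C T0 : ℝ, 0 < C ∧ 3 < T0 ∧ ∀ T : ℝ, T0 ≤ T →
  ∀ f g : ArithmeticFunction ℝ, Adm T f → Adm T g →
    |∑ᶠ γ ∈ zset T, (mz γ : ℝ) * wt T γ * (DQ T f (1 / 2 + γ * I) *
        (starRingEnd ℂ) (DQ T g (1 / 2 + γ * I))).re -
      cG T * Real.log T * ∑ n ∈ Finset.Icc 1 (NQ T), f n * g n / (n : ℝ)| ≤
    C * (cG T * ((∑ n ∈ Finset.Icc 1 (NQ T), (f n ^ 2 + g n ^ 2) / (n : ℝ)) +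
      |∑ n ∈ Finset.Icc 1 (NQ T), (La * f) n * g n / (n : ℝ)| +
      |∑ n ∈ Finset.Icc 1 (NQ T), (La * g) n * f n / (n : ℝ)|) + 1)

/-- DIA: diagonal sums of the powers of the prime indicator. -/
def DiaStatement : Prop :=
  (∀ (S : Finset ℕ) (a b N : ℕ), a ≠ b →
    ∑ n ∈ Finset.Icc 1 N, (pS S ^ a) n * (pS S ^ b) n / (n : ℝ) = 0) ∧
  (∀ a : ℕ, ∃ C : ℝ, 0 < C ∧ ∀ (S : Finset ℕ) (N : ℕ), IsPr S → 1 ≤ rs S →
    (∀ n, (pS S ^ a) n ≠ 0 → n ≤ N) →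
      |∑ n ∈ Finset.Icc 1 N, (pS S ^ a) n * (pS S ^ a) n / (n : ℝ) -
        (a.factorial : ℝ) * rs S ^ a| ≤ C * rs S ^ a / rs S)

/-- LAM: the sums with the von Mangoldt function. -/
def LamStatement : Prop := ∀ a b : ℕ, ∃ C : ℝ, 0 < C ∧ ∀ (y : ℝ) (N : ℕ), 3 ≤ y →
  1 ≤ rs (prs 1 y) →
    |∑ n ∈ Finset.Icc 1 N, (La * pS (prs 1 y) ^ a) n * (pS (prs 1 y) ^ b) n / (n : ℝ)| ≤
      C * Real.log y * rs (prs 1 y) ^ (min a b)

/-- MOG: mixed moments of the prime sum over the zeros. -/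
def MogStatement : Prop := ∀ a b : ℕ, Tendsto (fun T : ℝ =>
  (∑ᶠ γ ∈ zset T, (mz γ : ℝ) * wt T γ *
    (P0 T γ ^ a * (starRingEnd ℂ) (P0 T γ) ^ b).re) /
      (cG T * Real.log T * Real.sqrt (ll T) ^ (a + b))) atTop
  (𝓝 (if a = b then (a.factorial : ℝ) else 0))

/-- MOR: moments of the normalized real part. -/
def MorStatement : Prop := ∀ k : ℕ, Tendsto (fun T : ℝ =>
  (∑ᶠ γ ∈ zset T, (mz γ : ℝ) * wt T γ * X0 T γ ^ k) / (cG T * Real.log T)) atTop (𝓝 (gm k))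

/-- CHF: from moments to characteristic functions. -/
def ChfStatement : Prop := ∀ (s : ℕ → Finset ℝ) (w f : ℕ → ℝ → ℝ), (∀ n γ, 0 ≤ w n γ) →
  (∀ k : ℕ, Tendsto (fun n => ∑ γ ∈ s n, w n γ * f n γ ^ k) atTop (𝓝 (gm k))) →
  ∀ t : ℝ, Tendsto (fun n => ∑ γ ∈ s n, (w n γ : ℂ) * Complex.exp (((t * f n γ : ℝ) : ℂ) * I))
    atTop (𝓝 (Complex.exp (((-(t ^ 2 / 2) : ℝ) : ℂ))))

/-- LEV: from characteristic functions to tails (Lévy's theorem). -/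
def LevStatement : Prop := ∀ (s : ℕ → Finset ℝ) (w f : ℕ → ℝ → ℝ), (∀ n γ, 0 ≤ w n γ) →
  (∀ t : ℝ, Tendsto (fun n => ∑ γ ∈ s n, (w n γ : ℂ) * Complex.exp (((t * f n γ : ℝ) : ℂ) * I))
    atTop (𝓝 (Complex.exp (((-(t ^ 2 / 2) : ℝ) : ℂ))))) →
  ∀ x : ℝ, Tendsto (fun n => ∑ γ ∈ (s n).filter (fun γ => x < f n γ), w n γ) atTop (𝓝 (Qf x))

/-- QFC: elementary properties of the tail. -/
def QfcStatement : Prop := ∀ x y : ℝ, x ≤ y →
  0 ≤ Qf y ∧ Qf y ≤ Qf x ∧ Qf x ≤ Qf y + (y - x) ∧ Qf x ≤ 1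

/-- LIQ: the distribution of the normalized prime sum over the zeros. -/
def LiqStatement : Prop := ∀ x ε : ℝ, 0 < ε → ∀ᶠ T : ℝ in atTop,
  ∑ᶠ γ ∈ {γ | γ ∈ zset T ∧ x < X0 T γ}, (mz γ : ℝ) * wt T γ ≤
    (Qf x + ε) * (cG T * Real.log T)

/-- TYG: the distribution of the mollifier over the zeros (upper bound for the upper tail). -/
def TygStatement : Prop := ∀ th c1 c2 x ε : ℝ, 0 < th → th < 1 / 2 → 0 < ε →
  ∀ᶠ T : ℝ in atTop,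
    ∑ᶠ γ ∈ {γ | γ ∈ zset T ∧
      Real.exp (x * Real.sqrt (ll T / 2)) < ‖MM th c1 c2 T (1 / 2 + γ * I)‖},
        (mz γ : ℝ) * wt T γ ≤ (Qf x + ε) * (cG T * Real.log T)

/-- QG: the final statement (to be proved under RH). -/
def QgStatement : Prop := ∀ x ε : ℝ, 0 < ε → ∃ T0 : ℝ, ∀ T : ℝ, T0 ≤ T →
  (19 / 27 - Qf x - ε) * NZ T ≤ ({γ : ℝ | 3 < γ ∧ γ ≤ T ∧ hardyZ γ = 0 ∧
    Real.log γ * Real.exp (-(x * Real.sqrt (Real.log (Real.log γ) / 2))) ≤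
      |deriv hardyZ γ|}.ncard : ℝ)

end Pool.Agent.Lib.MP_6bc78b_nt.MS.QZ
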