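import Pool.Agent.Lib.MP_6bc78b_nt.MS.P5.Iface
import Pool.Agent.Lib.MP_6bc78b_nt.MS.P3.IfaceE
import Pool.Agent.Lib.MP_6bc78b_nt.MS.L.Iface

/-! Project MS, Part QZ: quantitative simplicity (negative discrete moments of `Z'`).
Definitions. Statements: Iface.lean; proofs: Paper.md. -/

set_option autoImplicit false

open Complex Filter Topology MeasureTheory ArithmeticFunction

namespace Pool.Agent.Lib.MP_6bc78b_nt.MS.QZ

open Pool.Agent.Lib.MP_6bc78b_nt.MS Pool.Agent.Lib.MP_6bc78b_nt.MS.P1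

/-! ## Primes -/

/-- The primes in `(a, b]`. -/
noncomputable def prs (a b : ℝ) : Finset ℕ :=
  (Finset.Icc 1 ⌊b⌋₊).filter (fun p => p.Prime ∧ a < (p : ℝ))

/-- `∑_{p ∈ S} 1/p`. -/
noncomputable def rs (S : Finset ℕ) : ℝ := ∑ p ∈ S, (p : ℝ)⁻¹

/-- `∑_{p ∈ S} 1/p^2`. -/
noncomputable def rq (S : Finset ℕ) : ℝ := ∑ p ∈ S, ((p : ℝ) ^ 2)⁻¹

/-- `S` is a set of primes. -/
def IsPr (S : Finset ℕ) : Prop := ∀ p ∈ S, p.Prime

/-- The indicator function of the primes in `S`. -/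
noncomputable def pS (S : Finset ℕ) : ArithmeticFunction ℝ :=
  ⟨fun n => if n ∈ S ∧ n.Prime then 1 else 0, by simp [Nat.not_prime_zero]⟩

/-- `ν(n) = ∏ 1 / v_p(n)!`. -/
noncomputable def nu (n : ℕ) : ℝ :=
  ∏ p ∈ n.primeFactors, (1 / ((n.factorization p).factorial : ℝ))

/-- Coefficients of `exp (α P_S)`: `α^Ω(n) ν(n)` on the numbers composed of primes in `S`. -/
noncomputable def ae (α : ℝ) (S : Finset ℕ) : ArithmeticFunction ℝ :=
  ⟨fun n => if n ≠ 0 ∧ n.primeFactors ⊆ S then α ^ (cardFactors n) * nu n else 0, by simp⟩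

/-- Coefficients of `∑_{j ≤ K} (α P_S)^j / j!`. -/
noncomputable def ac (α : ℝ) (S : Finset ℕ) (K : ℕ) : ArithmeticFunction ℝ :=
  ⟨fun n => ∑ j ∈ Finset.range (K + 1), α ^ j / (j.factorial : ℝ) * (pS S ^ j) n, by simp⟩

/-- A real arithmetic function with complex values. -/
noncomputable def toC (f : ArithmeticFunction ℝ) : ArithmeticFunction ℂ :=
  ⟨fun n => ((f n : ℝ) : ℂ), by simp⟩

/-- `μ(n) n^(-z)` on the numbers composed of primes in `S`. -/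
noncomputable def muz (S : Finset ℕ) (z : ℂ) : ArithmeticFunction ℂ :=
  ⟨fun n => if n.primeFactors ⊆ S then ((moebius n : ℤ) : ℂ) * (n : ℂ) ^ (-z) else 0, by simp⟩

/-- `∑ |f(n)|^2 / n`, in `[0, ∞]`. -/
noncomputable def NN (f : ArithmeticFunction ℂ) : ENNReal :=
  ∑' n : ℕ, ENNReal.ofReal (‖f n‖ ^ 2 / (n : ℝ))

/-- The weight of the frequency `τ`. -/
noncomputable def hh (Y α τ : ℝ) : ℝ := (1 + min |τ| 1 * Y) ^ α * (1 + |τ|) ^ (1 / 4 : ℝ)

/-! ## Scales -/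

/-- `log log T`. -/
noncomputable def ll (T : ℝ) : ℝ := Real.log (Real.log T)

/-- `δ_j = e^j / (log log T)^2`. -/
noncomputable def dl (T : ℝ) (j : ℕ) : ℝ := Real.exp j / ll T ^ 2

/-- `y_j = T^(δ_j)`. -/
noncomputable def yy (T : ℝ) (j : ℕ) : ℝ := T ^ dl T j

/-- The blocks of primes: `(1, y_0]`, `(y_0, y_1]`, `(y_1, y_2]`, ... -/
noncomputable def SS (T : ℝ) : ℕ → Finset ℕ
  | 0 => prs 1 (yy T 0)
  | (j + 1) => prs (yy T j) (yy T (j + 1))

/-- `R_j = δ_j^(-3/4)`. -/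
noncomputable def RJ (T : ℝ) (j : ℕ) : ℝ := dl T j ^ (-(3 / 4) : ℝ)

/-- `K_j = ⌈10 R_j⌉`. -/
noncomputable def KJ (T : ℝ) (j : ℕ) : ℕ := ⌈10 * RJ T j⌉₊

/-- `r_j = ⌊1/(20 δ_j)⌋`. -/
noncomputable def rJ (T : ℝ) (j : ℕ) : ℕ := ⌊1 / (20 * dl T j)⌋₊

/-- The number of scales: the `j` with `δ_j ≤ 10^(-12)`. -/
noncomputable def JJ (T : ℝ) : ℕ := ⌊Real.log (ll T ^ 2 / 10 ^ 12)⌋₊ + 1

/-- `r_j`, and `0` for `j = JJ`. -/
noncomputable def rj (T : ℝ) (j : ℕ) : ℕ := if j < JJ T then rJ T j else 0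

/-- Summable weights: `δ_j`, and `1` for `j = JJ`. -/
noncomputable def wj (T : ℝ) (j : ℕ) : ℝ := if j < JJ T then dl T j else 1

/-- Coefficients of `∏_{i<j} (truncated exp (α P_i)) * P_j^r`. -/
noncomputable def gA (α T : ℝ) (j r : ℕ) : ArithmeticFunction ℝ :=
  (∏ i ∈ Finset.range j, ac α (SS T i) (KJ T i)) * pS (SS T j) ^ r

/-- `P_S(s) = ∑_{p ∈ S} p^(-s)`. -/
noncomputable def PS (S : Finset ℕ) (s : ℂ) : ℂ := ∑ p ∈ S, (p : ℂ) ^ (-s)

/-- Truncated exponential. -/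
noncomputable def te (K : ℕ) (w : ℂ) : ℂ := ∑ m ∈ Finset.range (K + 1), w ^ m / (m.factorial : ℂ)

/-! ## The grid -/

/-- `T_0 = X`, `T_{i+1} = T_i + h D(T_i)`. -/
noncomputable def grd (X h : ℝ) : ℕ → ℝ
  | 0 => X
  | (i + 1) => grd X h i + h * DD (grd X h i)

/-- The good zeros for the window at `T`. -/
def Gset (th c1 c2 A η T : ℝ) : Set ℝ :=
  {γ : ℝ | γ ∈ zset T ∧ |γ - T| ≤ A * DD T ∧
    η * Real.log T ≤ ‖vv th c1 c2 T (1 / 2 + γ * I)‖}

/-! ## Elementary facts on `toC` -/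

@[simp] theorem toC_apply (f : ArithmeticFunction ℝ) (n : ℕ) : toC f n = ((f n : ℝ) : ℂ) := rfl

theorem toC_mul (f g : ArithmeticFunction ℝ) : toC (f * g) = toC f * toC g := by
  ext n
  simp [ArithmeticFunction.mul_apply]

theorem toC_one : toC 1 = 1 := by
  ext n
  simp only [toC_apply, ArithmeticFunction.one_apply]
  split_ifs <;> simp

theorem toC_pow (f : ArithmeticFunction ℝ) (k : ℕ) : toC (f ^ k) = toC f ^ k := by
  induction k with
  | zero => simp [toC_one]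
  | succ k ih => rw [pow_succ, pow_succ, toC_mul, ih]

theorem toC_prod {ι : Type*} (s : Finset ι) (f : ι → ArithmeticFunction ℝ) :
    toC (∏ i ∈ s, f i) = ∏ i ∈ s, toC (f i) := by
  classical
  induction s using Finset.induction_on with
  | empty => simp [toC_one]
  | insert a s ha ih => rw [Finset.prod_insert ha, Finset.prod_insert ha, toC_mul, ih]

end Pool.Agent.Lib.MP_6bc78b_nt.MS.QZ
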