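import Pool.Agent.Lib.MP_6bc78b_nt.MS.QZ.Iface

/-! Project MS, Part QZ, second file: the pointwise lower bound for `|Z'|` on the good set.
Statements of the modules; proofs: Paper2.md. -/

set_option autoImplicit false

open Complex Filter Topology MeasureTheory ArithmeticFunction

namespace Pool.Agent.Lib.MP_6bc78b_nt.MS.QZ

open Pool.Agent.Lib.MP_6bc78b_nt.MS Pool.Agent.Lib.MP_6bc78b_nt.MS.P1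

/-- HN0: the integral of the weight for `k = 0`. -/
def Hn0Statement : Prop := ∃ C : ℝ, 0 < C ∧ ∀ L Y : ℝ, 3 ≤ L → 1 ≤ Y → Y ≤ L →
  Integrable (fun τ : ℝ => hh Y 1 τ / (L * ((1 / L) ^ 2 + τ ^ 2))) ∧
  ∫ τ : ℝ, hh Y 1 τ / (L * ((1 / L) ^ 2 + τ ^ 2)) ≤ C * Real.log L

/-- NA0: norms for `k = 0`. -/
def Na0Statement : Prop := ∀ th c1 c2 : ℝ, 0 < th → th < 1 / 2 → ∃ C T0 : ℝ, 0 < C ∧ 3 < T0 ∧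
  ∀ T : ℝ, T0 ≤ T → ∀ j : ℕ, 1 ≤ j → j ≤ JJ T →
    ∑ n ∈ Finset.Icc 1 ⌊T⌋₊, ((bet th c1 c2 T * gA 1 T j 0) n) ^ 2 / (n : ℝ) ≤
      C * ll T ^ 2 * (1 / dl T j) ^ 2

/-- CF0: length and size of the coefficients, general `r`. -/
def Cf0Statement : Prop := ∀ th c1 c2 : ℝ, 0 < th → th < 1 / 2 → ∃ T0 : ℝ, 3 < T0 ∧
  ∀ T : ℝ, T0 ≤ T → ∀ (α : ℝ) (j r : ℕ), |α| ≤ 1 → j ≤ JJ T → dl T j * r ≤ 1 / 20 → ∀ n : ℕ,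
    (|(bet th c1 c2 T * gA α T j r) n| ≤ T ^ (3 : ℝ) ∧
      ((bet th c1 c2 T * gA α T j r) n ≠ 0 → (n : ℝ) ≤ T ^ (th + 1 / 10))) ∧
    (|gA α T j r n| ≤ T ^ (3 : ℝ) ∧
      (gA α T j r n ≠ 0 → (n : ℝ) ≤ T ^ (th + 1 / 10)))

/-- PI0: the Dirichlet polynomials, general `r`. -/
def Pi0Statement : Prop := ∀ th c1 c2 : ℝ, 0 < th → th < 1 / 2 → ∃ T0 : ℝ, 3 < T0 ∧
  ∀ T : ℝ, T0 ≤ T → ∀ (α : ℝ) (j r : ℕ), |α| ≤ 1 → j ≤ JJ T → dl T j * r ≤ 1 / 20 → ∀ s : ℂ,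
    dpoly (bet th c1 c2 T * gA α T j r) (T ^ (th + 1 / 10)) s =
      MM th c1 c2 T s * (∏ i ∈ Finset.range j, te (KJ T i) (α * PS (SS T i) s)) *
        PS (SS T j) s ^ r ∧
    dpoly (gA α T j r) (T ^ (th + 1 / 10)) s =
      (∏ i ∈ Finset.range j, te (KJ T i) (α * PS (SS T i) s)) * PS (SS T j) s ^ r

/-- PSV: the variance of the prime sum over the zeros. -/
def PsvStatement : Prop := ∃ C T0 : ℝ, 0 < C ∧ 3 < T0 ∧ ∀ T : ℝ, T0 ≤ T → ∀ j : ℕ, j ≤ JJ T →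
  ∑ᶠ γ ∈ zset T, (mz γ : ℝ) * wt T γ *
    ‖∑ i ∈ Finset.range j, PS (SS T i) (1 / 2 + γ * I)‖ ^ 2 ≤ C * (cG T * Real.log T) * ll T

/-- BAD: the exceptional zeros of one block. -/
def BadStatement : Prop := ∃ C T0 : ℝ, 0 < C ∧ 3 < T0 ∧ ∀ T : ℝ, T0 ≤ T → ∀ i : ℕ, i < JJ T →
  ∑ᶠ γ ∈ {γ | γ ∈ zset T ∧ RJ T i < ‖PS (SS T i) (1 / 2 + γ * I)‖}, (mz γ : ℝ) * wt T γ ≤
    C * dl T i * (cG T * Real.log T)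

/-- TYP: the typical size of the mollifier at the zeros. -/
def TypStatement : Prop := ∀ th c1 c2 ε : ℝ, 0 < th → th < 1 / 2 → 0 < ε →
  ∃ A : ℝ, 0 < A ∧ ∀ᶠ T : ℝ in atTop,
    ∑ᶠ γ ∈ {γ | γ ∈ zset T ∧
      Real.exp (A * Real.sqrt (ll T)) < ‖MM th c1 c2 T (1 / 2 + γ * I)‖},
        (mz γ : ℝ) * wt T γ ≤ ε * (cG T * Real.log T)

/-- FIC: the core of the final step, for a general family of sets of good zeros. -/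
def FicStatement : Prop := ∀ (th c1 c2 q A η ε : ℝ) (H : ℝ → Set ℝ), 0 < th → th < 1 / 2 →
  0 < q → 1 ≤ A → 0 < η → η ≤ 1 → 0 < ε →
  (∀ᶠ T : ℝ in atTop, H T ⊆ Gset th c1 c2 A η T ∧
    q * (cG T * Real.log T) ≤ ∑ᶠ γ ∈ H T, wt T γ) →
  ∀ X1 : ℝ, ∃ G : Set ℝ,
    (∀ γ ∈ G, 0 < γ ∧ hardyZ γ = 0 ∧ deriv hardyZ γ ≠ 0 ∧ ∃ T : ℝ, X1 ≤ T ∧ γ ∈ H T) ∧
    ∃ C T0 : ℝ, 0 < C ∧ ∀ T : ℝ, T0 ≤ T →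
      (q - ε) * NZ T ≤ ({γ : ℝ | γ ∈ G ∧ γ ≤ T}.ncard : ℝ) ∧
      ∀ k : ℝ, 0 < k → k ≤ 1 →
        ∑ᶠ γ ∈ {γ : ℝ | γ ∈ G ∧ γ ≤ T}, |deriv hardyZ γ| ^ (-(2 * k)) ≤
          C / k * (T * Real.log T ^ ((1 - k) ^ 2))

/-- QZ2: the final statement of Part QZ, with the pointwise bound (to be proved under RH). -/
def Qz2Statement : Prop := ∀ ε : ℝ, 0 < ε → ∃ (G : Set ℝ) (A C T0 : ℝ),
  (∀ γ ∈ G, 3 < γ ∧ hardyZ γ = 0 ∧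
    Real.log γ * Real.exp (-(A * Real.sqrt (Real.log (Real.log γ)))) ≤ |deriv hardyZ γ|) ∧
  ∀ T : ℝ, T0 ≤ T →
    (19 / 27 - ε) * NZ T ≤ ({γ : ℝ | γ ∈ G ∧ γ ≤ T}.ncard : ℝ) ∧
    ∀ k : ℝ, 0 < k → k ≤ 1 →
      ∑ᶠ γ ∈ {γ : ℝ | γ ∈ G ∧ γ ≤ T}, |deriv hardyZ γ| ^ (-(2 * k)) ≤
        C / k * (T * Real.log T ^ ((1 - k) ^ 2))

end Pool.Agent.Lib.MP_6bc78b_nt.MS.QZ
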