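import Pool.Agent.Lib.MP_6bc78b_nt.MS.Final
import Pool.Agent.Lib.MP_6bc78b_nt.MS.P5.Final
import Pool.Agent.Lib.MP_6bc78b_nt.MS.QZ.Iface2
import Pool.Agent.Lib.MP_6bc78b_nt.MS.QZ.H02.Grd
import Pool.Agent.Lib.MP_6bc78b_nt.MS.QZ.H03.Far
import Pool.Agent.Lib.MP_6bc78b_nt.MS.QZ.H03.Krn
import Pool.Agent.Lib.MP_6bc78b_nt.MS.QZ.H05.Psm
import Pool.Agent.Lib.MP_6bc78b_nt.MS.QZ.H05.Vnu
import Pool.Agent.Lib.MP_6bc78b_nt.MS.QZ.H16.Scl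
import Pool.Agent.Lib.MP_6bc78b_nt.MS.QZ.H17.Exp
import Pool.Agent.Lib.MP_6bc78b_nt.MS.QZ.H17.Ful
import Pool.Agent.Lib.MP_6bc78b_nt.MS.QZ.H17.Loc
import Pool.Agent.Lib.MP_6bc78b_nt.MS.QZ.H19.Bad
import Pool.Agent.Lib.MP_6bc78b_nt.MS.QZ.H19.Lim
import Pool.Agent.Lib.MP_6bc78b_nt.MS.QZ.H22.NMQ
import Pool.Agent.Lib.MP_6bc78b_nt.MS.QZ.H24.Hn0
import Pool.Agent.Lib.MP_6bc78b_nt.MS.QZ.H24.Mr2
import Pool.Agent.Lib.MP_6bc78b_nt.MS.QZ.H30.Cpr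
import Pool.Agent.Lib.MP_6bc78b_nt.MS.QZ.H31.Nrb
import Pool.Agent.Lib.MP_6bc78b_nt.MS.QZ.H31.Psv
import Pool.Agent.Lib.MP_6bc78b_nt.MS.QZ.H32.Hnt
import Pool.Agent.Lib.MP_6bc78b_nt.MS.QZ.H36.Blk
import Pool.Agent.Lib.MP_6bc78b_nt.MS.QZ.H38.Acn
import Pool.Agent.Lib.MP_6bc78b_nt.MS.QZ.H40.GLB
import Pool.Agent.Lib.MP_6bc78b_nt.MS.QZ.H42.Mul
import Pool.Agent.Lib.MP_6bc78b_nt.MS.QZ.H54.Fzn
import Pool.Agent.Lib.MP_6bc78b_nt.MS.QZ.H54.Nr0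
import Pool.Agent.Lib.MP_6bc78b_nt.MS.QZ.H57.Lzp
import Pool.Agent.Lib.MP_6bc78b_nt.MS.QZ.H59.Pi0
import Pool.Agent.Lib.MP_6bc78b_nt.MS.QZ.H59.Pid
import Pool.Agent.Lib.MP_6bc78b_nt.MS.QZ.H6.Fin
import Pool.Agent.Lib.MP_6bc78b_nt.MS.QZ.H62.Typ
import Pool.Agent.Lib.MP_6bc78b_nt.MS.QZ.H63.Fi2
import Pool.Agent.Lib.MP_6bc78b_nt.MS.QZ.H65.Pwi
import Pool.Agent.Lib.MP_6bc78b_nt.MS.QZ.H67.Cf0
import Pool.Agent.Lib.MP_6bc78b_nt.MS.QZ.H70.DMV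
import Pool.Agent.Lib.MP_6bc78b_nt.MS.QZ.H70.MOF
import Pool.Agent.Lib.MP_6bc78b_nt.MS.QZ.H75.Dhz
import Pool.Agent.Lib.MP_6bc78b_nt.MS.QZ.H79.Nra
import Pool.Agent.Lib.MP_6bc78b_nt.MS.QZ.H81.Pbk
import Pool.Agent.Lib.MP_6bc78b_nt.MS.QZ.H84.Tll
import Pool.Agent.Lib.MP_6bc78b_nt.MS.QZ.H9.Na0
import Pool.Agent.Lib.MP_6bc78b_nt.MS.QZ.H91.Biu
import Pool.Agent.Lib.MP_6bc78b_nt.MS.QZ.H93.Tay
import Pool.Agent.Lib.MP_6bc78b_nt.MS.QZ.H94.Bls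
import Pool.Agent.Lib.MP_6bc78b_nt.MS.QZ.H97.Dec

/-! Project MS, Part QZ: the final theorem under the Riemann hypothesis. -/

set_option autoImplicit false

namespace Pool.Agent.Lib.MP_6bc78b_nt.MS.QZ

open Pool.Agent.Lib.MP_6bc78b_nt
open Pool.Agent.Lib.MP_6bc78b_nt.MS Pool.Agent.Lib.MP_6bc78b_nt.MS.P1

theorem dmvF (hRH : RiemannHypothesis) : DmvStatement :=
  H70.dmv (zsfF hRH) tailF edg1F CHO.cho LSER.lser P5.H23.mvf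
    (P5.H51.mov CHI.chi CHO.cho GAU.gau DDF.ddf) CHI.chi DDF.ddf L.H61.mer

theorem limF (hRH : RiemannHypothesis) : LimStatement :=
  H19.lim (zvF hRH) (zvvF hRH) npF (L.lv hRH) (P3.lvvF hRH)

/-- Part QZ under the Riemann hypothesis: quantitative simplicity. -/
theorem qz2F (hRH : RiemannHypothesis) : Qz2Statement := by
  have hSCL : SclStatement := H16.scl
  have hBIU : BiuStatement := H91.biu hSCL
  have hVNU : VnuStatement := vnu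
  have hPSM : PsmStatement := psm hVNU
  have hLZP : LzpStatement := H57.lzp
  have hMR2 : Mr2Statement := H24.mr2 hLZP L.H61.mer
  have hBLS : BlsStatement := H94.bls hMR2 hSCL hBIU
  have hEXP : ExpStatement := H17.exp hRH hLZP hMR2 (P3.zb P3.H23.zr)
  have hMUL : MulStatement := H42.mul
  have hCPR : CprStatement := H30.cpr
  have hTLL : TllStatement := H84.tll hVNU hPSM
  have hBLK : BlkStatement := H36.blk (H17.ful H17.loc hCPR hMUL) hTLL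
  have hPBK : PbkStatement := H81.pbk hVNU hPSM
  have hACN : AcnStatement := H38.acn hVNU hPSM
  have hDEC : DecStatement := H97.dec hSCL
  have hFZN : FznStatement := H54.fzn hMUL hCPR hBLK hPBK hBIU hBLS
  have hNRA : NraStatement := H79.nra hEXP hFZN H03.krn H54.nr0 H32.hnt hBIU hBLS hSCL hDEC
  have hNRB : NrbStatement := H31.nrb hACN hCPR hBIU hBLS hSCL hDEC
  have hCFB : CfbStatement := H67.cfb hSCL
  have hDMV : DmvStatement := dmvF hRH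
  have hMOF : MofStatement := H70.mof (H65.pwi H93.tay) (H59.pid hCFB) hCFB hDMV hNRA hNRB hSCL
    P4.H30.zfac DDF.ddf
  have hGLB : GlbStatement := H40.glb (limF hRH) (znF hRH) (H03.far (znF hRH) P4.H30.zfac)
    P4.H30.zfac
  have hCF0 : Cf0Statement := H67.cf0 hSCL
  have hNA0 : Na0Statement := H9.na0 hEXP hFZN H03.krn H54.nr0 (H24.hn0 H32.hnt) hBIU hBLS hSCL
  have hTYP : TypStatement := H62.typ (H19.bad hDMV hACN hDEC hBIU hBLS hSCL)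
    (H31.psv hDMV hBIU hBLS hSCL) H93.tay hCF0 (H59.pi0 hCF0) hDMV hNA0 hSCL
  have hFIC : FicStatement := H6.fic hMOF H02.grid (P5.nasF hRH) P4.H30.zfac H75.dhz
  exact H63.fi2 hFIC hTYP hGLB H22.nmq H75.dhz P4.H30.zfac

end Pool.Agent.Lib.MP_6bc78b_nt.MS.QZ
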