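import Pool.Agent.Lib.MP_6bc78b_nt.MS.QZ.Final
import Pool.Agent.Lib.MP_6bc78b_nt.MS.QZ.Iface3
import Pool.Agent.Lib.MP_6bc78b_nt.MS.QZ.H05.Mvl
import Pool.Agent.Lib.MP_6bc78b_nt.MS.QZ.H50.Smv
import Pool.Agent.Lib.MP_6bc78b_nt.MS.QZ.H82.Dia
import Pool.Agent.Lib.MP_6bc78b_nt.MS.QZ.H76.Lam
import Pool.Agent.Lib.MP_6bc78b_nt.MS.QZ.H76.Tyg
import Pool.Agent.Lib.MP_6bc78b_nt.MS.QZ.H15.Chf
import Pool.Agent.Lib.MP_6bc78b_nt.MS.QZ.H17.Lev
import Pool.Agent.Lib.MP_6bc78b_nt.MS.QZ.H17.Liq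
import Pool.Agent.Lib.MP_6bc78b_nt.MS.QZ.H17.Mor
import Pool.Agent.Lib.MP_6bc78b_nt.MS.QZ.H70.Qfc
import Pool.Agent.Lib.MP_6bc78b_nt.MS.QZ.H70.Fig
import Pool.Agent.Lib.MP_6bc78b_nt.MS.QZ.H88.Mog

/-! Project MS, Part QZ, third file (QG): the final theorem under the Riemann hypothesis. -/

set_option autoImplicit false

namespace Pool.Agent.Lib.MP_6bc78b_nt.MS.QZ

open Pool.Agent.Lib.MP_6bc78b_nt
open Pool.Agent.Lib.MP_6bc78b_nt.MS Pool.Agent.Lib.MP_6bc78b_nt.MS.P1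

theorem sclF : SclStatement := H16.scl

theorem biuF : BiuStatement := H91.biu sclF

theorem vnuF : VnuStatement := vnu

theorem psmF : PsmStatement := psm vnuF

theorem lzpF : LzpStatement := H57.lzp

theorem mr2F : Mr2Statement := H24.mr2 lzpF L.H61.mer

theorem blsF : BlsStatement := H94.bls mr2F sclF biuF

theorem acnF : AcnStatement := H38.acn vnuF psmF

theorem decF : DecStatement := H97.dec sclF

theorem cf0F : Cf0Statement := H67.cf0 sclF

theorem pi0F : Pi0Statement := H59.pi0 cf0F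

theorem fznF : FznStatement :=
  H54.fzn H42.mul H30.cpr (H36.blk (H17.ful H17.loc H30.cpr H42.mul) (H84.tll vnuF psmF))
    (H81.pbk vnuF psmF) biuF blsF

theorem expF (hRH : RiemannHypothesis) : ExpStatement :=
  H17.exp hRH lzpF mr2F (P3.zb P3.H23.zr)

theorem na0F (hRH : RiemannHypothesis) : Na0Statement :=
  H9.na0 (expF hRH) fznF H03.krn H54.nr0 (H24.hn0 H32.hnt) biuF blsF sclF

theorem badF (hRH : RiemannHypothesis) : BadStatement :=
  H19.bad (dmvF hRH) acnF decF biuF blsF sclF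

theorem glbF (hRH : RiemannHypothesis) : GlbStatement :=
  H40.glb (limF hRH) (znF hRH) (H03.far (znF hRH) P4.H30.zfac) P4.H30.zfac

theorem mofF (hRH : RiemannHypothesis) : MofStatement :=
  H70.mof (H65.pwi H93.tay) (H59.pid (H67.cfb sclF)) (H67.cfb sclF) (dmvF hRH)
    (H79.nra (expF hRH) fznF H03.krn H54.nr0 H32.hnt biuF blsF sclF decF)
    (H31.nrb acnF H30.cpr biuF blsF sclF decF) sclF P4.H30.zfac DDF.ddf

theorem ficF (hRH : RiemannHypothesis) : FicStatement :=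
  H6.fic (mofF hRH) H02.grid (P5.nasF hRH) P4.H30.zfac H75.dhz

theorem smvF (hRH : RiemannHypothesis) : SmvStatement :=
  H50.smv (zsfF hRH) tailF edg1F CHO.cho LSER.lser
    (P5.H51.mov CHI.chi CHO.cho GAU.gau DDF.ddf) CHI.chi DDF.ddf (H05.mvl GAU.gau DDF.ddf)

theorem diaF : DiaStatement := H82.dia vnuF psmF

theorem lamF : LamStatement := H76.lam vnuF psmF L.H61.mer

theorem mogF (hRH : RiemannHypothesis) : MogStatement :=
  H88.mog (smvF hRH) diaF lamF cf0F pi0F biuF mr2F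

theorem morF (hRH : RiemannHypothesis) : MorStatement := H17.mor (mogF hRH) P4.H30.zfac

theorem liqF (hRH : RiemannHypothesis) : LiqStatement :=
  H17.liq (morF hRH) H15.chf H17.lev P4.H30.zfac

theorem tygF (hRH : RiemannHypothesis) : TygStatement :=
  H76.tyg (liqF hRH) H70.qfc (badF hRH) H93.tay cf0F pi0F (dmvF hRH) (na0F hRH) sclF

/-- Part QG under the Riemann hypothesis: the Gaussian form of quantitative simplicity. -/
theorem qgF (hRH : RiemannHypothesis) : QgStatement :=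
  H70.fig (ficF hRH) (tygF hRH) H70.qfc (glbF hRH) H22.nmq H75.dhz P4.H30.zfac

end Pool.Agent.Lib.MP_6bc78b_nt.MS.QZ
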