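import Pool.Agent.Lib.MP_6bc78b_nt.MS.QZ.Defs

/-! Project MS, Part QZ: quantitative simplicity (negative discrete moments of `Z'`).
Statements of the modules; proofs: Paper.md. -/

set_option autoImplicit false

open Complex Filter Topology MeasureTheory ArithmeticFunction

namespace Pool.Agent.Lib.MP_6bc78b_nt.MS.QZ

open Pool.Agent.Lib.MP_6bc78b_nt.MS Pool.Agent.Lib.MP_6bc78b_nt.MS.P1

/-! ## Group 1: prime sums and zeta -/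

/-- LZP: prime sums against `log |ζ|` to the right of `1`. -/
def LzpStatement : Prop := ∃ C : ℝ, 0 < C ∧ ∀ (y : ℝ) (z : ℂ), 2 ≤ y → 0 ≤ z.re →
  z.re ≤ 1 / Real.log y →
    |(∑ p ∈ prs 1 y, (p : ℂ) ^ (-(1 + z))).re -
      Real.log ‖riemannZeta (1 + (1 / Real.log y : ℝ) + z)‖| ≤ C

/-- MR2: Mertens. -/
def Mr2Statement : Prop := ∃ C : ℝ, 0 < C ∧
  (∀ y : ℝ, 2 ≤ y → |rs (prs 1 y) - Real.log (Real.log y)| ≤ C) ∧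
  (∀ a b : ℝ, 2 ≤ a → a ≤ b → rs (prs a b) ≤ (Real.log b - Real.log a + C) / Real.log a) ∧
  (∀ a b : ℝ, 2 ≤ a → a ≤ b → rs (prs a b) ≤ Real.log (Real.log b / Real.log a) + C)

/-- EXP: the exponent of the Euler product (needs RH). -/
def ExpStatement : Prop := ∃ C : ℝ, 0 < C ∧ ∀ (y α : ℝ) (z : ℂ), 3 ≤ y → 0 ≤ α → α ≤ 1 →
  0 ≤ z.re → z.re ≤ 1 / Real.log y →
    Real.exp (∑ p ∈ prs 1 y, ‖(α : ℂ) - (p : ℂ) ^ (-z)‖ ^ 2 / (p : ℝ)) ≤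
      C * Real.log y ^ ((1 - α) ^ 2) * hh (Real.log y) α z.im ^ 2

/-! ## Group 2: coefficients and their norms -/

/-- VNU: the powers of the prime indicator, and the truncated exponential. -/
def VnuStatement : Prop :=
  (∀ (S : Finset ℕ) (j n : ℕ), n ≠ 0 → (pS S ^ j) n =
    if n.primeFactors ⊆ S ∧ cardFactors n = j then (j.factorial : ℝ) * nu n else 0) ∧
  (∀ (α : ℝ) (S : Finset ℕ) (K n : ℕ),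
    ac α S K n = if cardFactors n ≤ K then ae α S n else 0)

/-- PSM: sums over `n` with weight `1/n`. -/
def PsmStatement : Prop :=
  (∀ (S : Finset ℕ) (j : ℕ), IsPr S → HasSum (fun n : ℕ => (pS S ^ j) n / (n : ℝ)) (rs S ^ j)) ∧
  (∀ (S : Finset ℕ) (x : ℝ), IsPr S → 0 ≤ x →
    HasSum (fun n : ℕ => ae x S n / (n : ℝ)) (Real.exp (x * rs S)))

/-- MUL: disjoint sets of primes. -/
def MulStatement : Prop := ∀ S1 S2 : Finset ℕ, IsPr S1 → IsPr S2 → Disjoint S1 S2 →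
  (∀ z : ℂ, muz (S1 ∪ S2) z = muz S1 z * muz S2 z) ∧
  (∀ α : ℝ, ae α (S1 ∪ S2) = ae α S1 * ae α S2)

/-- CPR: norms of products with coprime supports. -/
def CprStatement : Prop := ∀ (S1 S2 : Finset ℕ) (f g : ArithmeticFunction ℂ), Disjoint S1 S2 →
  (∀ n, f n ≠ 0 → n.primeFactors ⊆ S1) → (∀ n, g n ≠ 0 → n.primeFactors ⊆ S2) →
    NN (f * g) ≤ NN f * NN g

/-- LOC: one prime. -/
def LocStatement : Prop := ∃ C : ℝ, 0 < C ∧ ∀ (p : ℕ) (α : ℝ) (z : ℂ), p.Prime → 0 ≤ α →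
  α ≤ 1 → 0 ≤ z.re → NN (muz {p} z * toC (ae α {p})) ≤
    ENNReal.ofReal (Real.exp (‖(α : ℂ) - (p : ℂ) ^ (-z)‖ ^ 2 / (p : ℝ) + C / (p : ℝ) ^ 2))

/-- FUL: the full exponential. -/
def FulStatement : Prop := ∃ C : ℝ, 0 < C ∧ ∀ (S : Finset ℕ) (α : ℝ) (z : ℂ), IsPr S → 0 ≤ α →
  α ≤ 1 → 0 ≤ z.re → NN (muz S z * toC (ae α S)) ≤
    ENNReal.ofReal (Real.exp (∑ p ∈ S, ‖(α : ℂ) - (p : ℂ) ^ (-z)‖ ^ 2 / (p : ℝ) + C * rq S))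

/-- TLL: the tail of the exponential. -/
def TllStatement : Prop := ∀ (S : Finset ℕ) (α : ℝ) (z : ℂ) (K : ℕ), IsPr S → 0 ≤ α →
  α ≤ 1 → 0 ≤ z.re → NN (muz S z * toC (ae α S - ac α S K)) ≤
    ENNReal.ofReal (Real.exp (14 * rs S - 2 * K))

/-- BLK: the truncated exponential. -/
def BlkStatement : Prop := ∃ C : ℝ, 0 < C ∧ ∀ (S : Finset ℕ) (α : ℝ) (z : ℂ) (K : ℕ), IsPr S →
  0 ≤ α → α ≤ 1 → 0 ≤ z.re → NN (muz S z * toC (ac α S K)) ≤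
    ENNReal.ofReal ((1 + Real.exp (7 * rs S - K)) ^ 2 *
      Real.exp (∑ p ∈ S, ‖(α : ℂ) - (p : ℂ) ^ (-z)‖ ^ 2 / (p : ℝ) + C * rq S))

/-- PBK: powers of the prime polynomial. -/
def PbkStatement : Prop := ∀ (S : Finset ℕ) (z : ℂ) (r : ℕ), IsPr S → 0 ≤ z.re →
  NN (muz S z * toC (pS S ^ r)) ≤
    ENNReal.ofReal (Real.exp (2 * rs S) * (2 ^ r * (r.factorial : ℝ) * rs S ^ r))

/-- ACN: norms without `μ`. -/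
def AcnStatement : Prop := ∀ (S : Finset ℕ), IsPr S →
  (∀ (α : ℝ) (K : ℕ), NN (toC (ac α S K)) ≤ ENNReal.ofReal (Real.exp (α ^ 2 * rs S))) ∧
  (∀ r : ℕ, NN (toC (pS S ^ r)) ≤ ENNReal.ofReal ((r.factorial : ℝ) * rs S ^ r))

/-! ## Group 3: scales -/

/-- SCL: numerical facts on the scales. -/
def SclStatement : Prop := ∃ T0 : ℝ, 3 < T0 ∧ ∀ T : ℝ, T0 ≤ T →
  10 ^ 7 ≤ ll T ∧ (JJ T : ℝ) ≤ ll T ∧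
  (∀ j, j < JJ T → 0 < dl T j ∧ dl T j ≤ 1 / 10 ^ 12) ∧
  (1 / 10 ^ 12 ≤ dl T (JJ T) ∧ dl T (JJ T) ≤ 3 / 10 ^ 12) ∧
  (∀ j, j < JJ T → 1 ≤ RJ T j ∧ 10 * RJ T j ≤ KJ T j ∧ (KJ T j : ℝ) ≤ 11 * RJ T j) ∧
  (∀ j, j ≤ JJ T → ∑ i ∈ Finset.range j, dl T i * KJ T i ≤ 1 / 20 ∧
    dl T j * rj T j ≤ 1 / 20) ∧
  ∑ i ∈ Finset.range (JJ T), dl T i ≤ 1 ∧
  ∑ i ∈ Finset.range (JJ T), Real.exp (-RJ T i) ≤ 1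

/-- BIU: the blocks partition the primes. -/
def BiuStatement : Prop := ∃ T0 : ℝ, 3 < T0 ∧ ∀ T : ℝ, T0 ≤ T →
  (∀ i, IsPr (SS T i)) ∧ (∀ i i', i ≠ i' → Disjoint (SS T i) (SS T i')) ∧
  (∀ j, (Finset.range (j + 1)).biUnion (SS T) = prs 1 (yy T j)) ∧
  (∀ j, j ≤ JJ T → 3 ≤ yy T 0 ∧ yy T 0 ≤ yy T j ∧ yy T j ≤ T ∧
    Disjoint (prs 1 (yy T j)) (prs (yy T j) T) ∧ prs 1 T = prs 1 (yy T j) ∪ prs (yy T j) T)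

/-- BLS: sums over the blocks. -/
def BlsStatement : Prop := ∃ C T0 : ℝ, 0 < C ∧ 3 < T0 ∧ ∀ T : ℝ, T0 ≤ T → ∀ j, j ≤ JJ T →
  ∏ i ∈ Finset.range j, (1 + Real.exp (7 * rs (SS T i) - KJ T i)) ^ 2 ≤ C ∧
  rs (SS T 0) ≤ ll T + C ∧ (1 ≤ j → rs (SS T j) ≤ 2) ∧
  Real.exp (2 * rs (prs (yy T j) T)) ≤ C * (1 / dl T j) ^ 2 ∧
  ∑ i ∈ Finset.range j, rq (SS T i) ≤ C ∧
  ∑ i ∈ Finset.range j, rs (SS T i) ≤ ll T + C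

/-- DEC: the gain from the high moments. -/
def DecStatement : Prop := ∀ C0 : ℝ, 0 < C0 → ∃ C T0 : ℝ, 0 < C ∧ 3 < T0 ∧ ∀ T : ℝ, T0 ≤ T →
  (∀ j, 1 ≤ j → j ≤ JJ T → 4 ^ rj T j * ((rj T j).factorial : ℝ) * (1 / dl T j) ^ 2 ≤
    C * wj T j * RJ T j ^ (2 * rj T j)) ∧
  Real.exp (2 * (ll T + C0)) * (2 ^ rj T 0 * ((rj T 0).factorial : ℝ) * (ll T + C0) ^ rj T 0) *
    (1 / dl T 0) ^ 2 ≤ C * wj T 0 * RJ T 0 ^ (2 * rj T 0)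

/-- FZN: the norm for one frequency. -/
def FznStatement : Prop := ∃ C T0 : ℝ, 0 < C ∧ 3 < T0 ∧ ∀ T : ℝ, T0 ≤ T →
  ∀ (j r : ℕ) (α : ℝ) (z : ℂ), j ≤ JJ T → 0 ≤ α → α ≤ 1 → 0 ≤ z.re →
    NN (muz (prs 1 T) z * toC (gA α T j r)) ≤ ENNReal.ofReal (C *
      Real.exp (∑ i ∈ Finset.range j, ∑ p ∈ SS T i, ‖(α : ℂ) - (p : ℂ) ^ (-z)‖ ^ 2 / (p : ℝ)) *
      (Real.exp (2 * rs (SS T j)) * (2 ^ r * (r.factorial : ℝ) * rs (SS T j) ^ r)) *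
      (1 / dl T j) ^ 2)

/-! ## Group 4: from one frequency to the mollifier -/

/-- KRN: Perron's formula for the coefficients of the mollifier. -/
def KrnStatement : Prop := ∀ th c1 c2 : ℝ, 0 < th → ∃ C T0 : ℝ, 0 < C ∧ 3 < T0 ∧ ∀ T : ℝ,
  T0 ≤ T → ∃ R : ℝ → ℂ, Continuous R ∧
    (∀ τ, ‖R τ‖ ≤ C / (Real.log T * ((1 / Real.log T) ^ 2 + τ ^ 2))) ∧
    ∀ n : ℕ, n ≠ 0 → ((bet th c1 c2 T n : ℝ) : ℂ) = ∫ τ : ℝ, R τ *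
      (((moebius n : ℤ) : ℂ) * (n : ℂ) ^ (-(((1 / Real.log T : ℝ) : ℂ) + τ * I)))

/-- NR0: Cauchy–Schwarz in the frequency. -/
def Nr0Statement : Prop := ∀ (R : ℝ → ℂ) (h : ℝ → ℝ) (c B H T : ℝ) (b g : ArithmeticFunction ℝ),
  1 ≤ T → 0 ≤ B → Continuous R → Continuous h → (∀ τ, 1 ≤ h τ) →
  Integrable (fun τ : ℝ => ‖R τ‖ * h τ) → ∫ τ : ℝ, ‖R τ‖ * h τ ≤ H →
  (∀ n : ℕ, n ≠ 0 → ((b n : ℝ) : ℂ) = ∫ τ : ℝ, R τ *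
    (((moebius n : ℤ) : ℂ) * (n : ℂ) ^ (-((c : ℂ) + τ * I)))) →
  (∀ τ : ℝ, NN (muz (prs 1 T) ((c : ℂ) + τ * I) * toC g) ≤ ENNReal.ofReal (B * h τ ^ 2)) →
    ∑ n ∈ Finset.Icc 1 ⌊T⌋₊, ((b * g) n) ^ 2 / (n : ℝ) ≤ B * H ^ 2

/-- HNT: the integral of the weight. -/
def HntStatement : Prop := ∃ C : ℝ, 0 < C ∧ ∀ L Y k : ℝ, 3 ≤ L → 1 ≤ Y → Y ≤ L → 0 < k → k ≤ 1 →
  Integrable (fun τ : ℝ => hh Y (1 - k) τ / (L * ((1 / L) ^ 2 + τ ^ 2))) ∧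
  ∫ τ : ℝ, hh Y (1 - k) τ / (L * ((1 / L) ^ 2 + τ ^ 2)) ≤ C / k

/-- NRA: norms with the mollifier. -/
def NraStatement : Prop := ∀ th c1 c2 : ℝ, 0 < th → th < 1 / 2 → ∃ C T0 : ℝ, 0 < C ∧ 3 < T0 ∧
  ∀ T : ℝ, T0 ≤ T → ∀ (k : ℝ) (j : ℕ), 0 < k → k ≤ 1 → j ≤ JJ T →
    ∑ n ∈ Finset.Icc 1 ⌊T⌋₊, ((bet th c1 c2 T * gA (1 - k) T j (rj T j)) n) ^ 2 / (n : ℝ) ≤
      C / k ^ 2 * Real.log T ^ (k ^ 2) * wj T j * RJ T j ^ (2 * rj T j)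

/-- NRB: norms without the mollifier. -/
def NrbStatement : Prop := ∃ C T0 : ℝ, 0 < C ∧ 3 < T0 ∧
  ∀ T : ℝ, T0 ≤ T → ∀ (k : ℝ) (j : ℕ), 0 < k → k ≤ 1 → j ≤ JJ T →
    ∑ n ∈ Finset.Icc 1 ⌊T⌋₊, ((gA (-k) T j (rj T j)) n) ^ 2 / (n : ℝ) ≤
      C * Real.log T ^ (k ^ 2) * wj T j * RJ T j ^ (2 * rj T j)

/-! ## Group 5: Dirichlet polynomials at the zeros -/

/-- CFB: length and size of the coefficients. -/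
def CfbStatement : Prop := ∀ th c1 c2 : ℝ, 0 < th → th < 1 / 2 → ∃ T0 : ℝ, 3 < T0 ∧
  ∀ T : ℝ, T0 ≤ T → ∀ (α : ℝ) (j : ℕ), |α| ≤ 1 → j ≤ JJ T → ∀ n : ℕ,
    (|(bet th c1 c2 T * gA α T j (rj T j)) n| ≤ T ^ (3 : ℝ) ∧
      ((bet th c1 c2 T * gA α T j (rj T j)) n ≠ 0 → (n : ℝ) ≤ T ^ (th + 1 / 10))) ∧
    (|gA α T j (rj T j) n| ≤ T ^ (3 : ℝ) ∧
      (gA α T j (rj T j) n ≠ 0 → (n : ℝ) ≤ T ^ (th + 1 / 10)))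

/-- PID: the Dirichlet polynomials. -/
def PidStatement : Prop := ∀ th c1 c2 : ℝ, 0 < th → th < 1 / 2 → ∃ T0 : ℝ, 3 < T0 ∧
  ∀ T : ℝ, T0 ≤ T → ∀ (α : ℝ) (j : ℕ), |α| ≤ 1 → j ≤ JJ T → ∀ s : ℂ,
    dpoly (bet th c1 c2 T * gA α T j (rj T j)) (T ^ (th + 1 / 10)) s =
      MM th c1 c2 T s * (∏ i ∈ Finset.range j, te (KJ T i) (α * PS (SS T i) s)) *
        PS (SS T j) s ^ rj T j ∧
    dpoly (gA α T j (rj T j)) (T ^ (th + 1 / 10)) s =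
      (∏ i ∈ Finset.range j, te (KJ T i) (α * PS (SS T i) s)) * PS (SS T j) s ^ rj T j

/-- DMV: mean values over the zeros (needs RH). -/
def DmvStatement : Prop := ∀ δ : ℝ, 0 < δ → δ < 1 → ∃ C T0 : ℝ, 0 < C ∧ 3 < T0 ∧ ∀ T : ℝ,
  T0 ≤ T → ∀ d : ArithmeticFunction ℝ, (∀ n, |d n| ≤ T ^ (3 : ℝ)) →
    ∑ᶠ γ ∈ zset T, (mz γ : ℝ) * wt T γ * ‖dpoly d (T ^ (1 - δ)) (1 / 2 + γ * I)‖ ^ 2 ≤
      C * (cG T * Real.log T * ∑ n ∈ Finset.Icc 1 ⌊T ^ (1 - δ)⌋₊, d n ^ 2 / (n : ℝ) + 1)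

/-- TAY: the truncated exponential. -/
def TayStatement : Prop := ∀ (R α : ℝ) (K : ℕ) (w : ℂ), 1 ≤ R → |α| ≤ 1 → ‖w‖ ≤ R →
  10 * R ≤ K → Real.exp (2 * α * w.re) ≤ Real.exp (4 * Real.exp (-R)) * ‖te K (α * w)‖ ^ 2

/-- PWI: the pointwise inequality. -/
def PwiStatement : Prop := ∀ (J : ℕ) (w : ℕ → ℂ) (R : ℕ → ℝ) (K r : ℕ → ℕ) (m : ℂ) (k : ℝ),
  0 < k → k ≤ 1 → (∀ i, i < J → 1 ≤ R i ∧ 10 * R i ≤ K i) →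
    ‖m‖ ^ (2 * k) ≤ Real.exp (4 * ∑ i ∈ Finset.range J, Real.exp (-R i)) *
      ∑ j ∈ Finset.range (J + 1),
        (k * ‖m * ∏ i ∈ Finset.range j, te (K i) (((1 - k : ℝ) : ℂ) * w i)‖ ^ 2 +
          (1 - k) * ‖∏ i ∈ Finset.range j, te (K i) (((-k : ℝ) : ℂ) * w i)‖ ^ 2) *
        (if j < J then (‖w j‖ / R j) ^ (2 * r j) else 1)

/-- MOF: fractional moments of the mollifier over the zeros. -/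
def MofStatement : Prop := ∀ th c1 c2 : ℝ, 0 < th → th < 1 / 2 → ∃ C T0 : ℝ, 0 < C ∧ 3 < T0 ∧
  ∀ T : ℝ, T0 ≤ T → ∀ k : ℝ, 0 < k → k ≤ 1 →
    ∑ᶠ γ ∈ zset T, (mz γ : ℝ) * wt T γ * ‖MM th c1 c2 T (1 / 2 + γ * I)‖ ^ (2 * k) ≤
      C / k * (cG T * Real.log T) * Real.log T ^ (k ^ 2)

/-! ## Group 6: the good zeros -/

/-- FAR: zeros far from `T` do not matter. -/
def FarStatement : Prop := ∀ ε : ℝ, 0 < ε → ∃ A : ℝ, 1 ≤ A ∧ ∀ᶠ T : ℝ in atTop,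
  ∑ᶠ γ ∈ {γ | γ ∈ zset T ∧ A * DD T < |γ - T|}, (mz γ : ℝ) * wt T γ ≤ ε * (cG T * Real.log T)

/-- LIM: the two moments of `v` (from Parts I-III). -/
def LimStatement : Prop := ∀ th c1 c2 : ℝ, 0 < th → th < 1 / 2 →
  Tendsto (fun T : ℝ => (ZS T (vv th c1 c2 T)).re / (cG T * Real.log T ^ 2)) atTop
    (𝓝 (m1 th c1 c2)) ∧
  Tendsto (fun T : ℝ =>
    (ZS T (fun s => vv th c1 c2 T s * (starRingEnd ℂ) (vv th c1 c2 T s))).re /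
      (cG T * Real.log T ^ 3)) atTop (𝓝 (m2 th c1 c2))

/-- GLB: many good zeros, weighted. -/
def GlbStatement : Prop := ∀ th c1 c2 ε : ℝ, 0 < th → th < 1 / 2 → 0 < m1 th c1 c2 → 0 < ε →
  ∃ A η : ℝ, 1 ≤ A ∧ 0 < η ∧ η ≤ 1 ∧ ∀ᶠ T : ℝ in atTop,
    (m1 th c1 c2 ^ 2 / m2 th c1 c2 - ε) * (cG T * Real.log T) ≤
      ∑ᶠ γ ∈ Gset th c1 c2 A η T, wt T γ

/-- GRD: the grid. -/
def GrdStatement : Prop := ∀ h A : ℝ, 0 < h → h ≤ 1 → 1 ≤ A → ∃ X0 : ℝ, 3 ≤ X0 ∧ ∀ X : ℝ,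
  X0 ≤ X →
    (∀ i, X ≤ grd X h i) ∧ (∀ Y : ℝ, {i : ℕ | grd X h i ≤ Y}.Finite) ∧
    (∀ γ : ℝ, ∑ᶠ i ∈ {i : ℕ | |γ - grd X h i| ≤ A * DD (grd X h i)}, h * wt (grd X h i) γ ≤
      Real.sqrt Real.pi + 3 * h) ∧
    (∀ δ : ℝ, 0 < δ → ∀ᶠ Y : ℝ in atTop, (1 - δ) * (Y * Real.log Y) ≤
      ∑ᶠ i ∈ {i : ℕ | grd X h i ≤ Y}, h * DD (grd X h i) * Real.log (grd X h i)) ∧
    (∀ Y : ℝ, X ≤ Y → ∑ᶠ i ∈ {i : ℕ | grd X h i ≤ Y}, h * DD (grd X h i) ≤ 2 * Y)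

/-- DHZ: `|Z'| = |ζ'|` at the zeros. -/
def DhzStatement : Prop := ∀ γ : ℝ, hardyZ γ = 0 →
  |deriv hardyZ γ| = ‖deriv riemannZeta (1 / 2 + γ * I)‖

/-- NMQ: the proportion `19/27`. -/
def NmqStatement : Prop := ∀ ε : ℝ, 0 < ε → ∃ th c1 c2 : ℝ, 0 < th ∧ th < 1 / 2 ∧
  0 < m1 th c1 c2 ∧ 0 < m2 th c1 c2 ∧ 19 / 27 - ε ≤ m1 th c1 c2 ^ 2 / m2 th c1 c2

/-- The final statement of Part QZ (to be proved under RH). -/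
def QzStatement : Prop := ∀ ε : ℝ, 0 < ε → ∃ G : Set ℝ,
  (∀ γ ∈ G, 0 < γ ∧ hardyZ γ = 0 ∧ deriv hardyZ γ ≠ 0) ∧
  ∃ C T0 : ℝ, 0 < C ∧ ∀ T : ℝ, T0 ≤ T →
    (19 / 27 - ε) * NZ T ≤ ({γ : ℝ | γ ∈ G ∧ γ ≤ T}.ncard : ℝ) ∧
    ∀ k : ℝ, 0 < k → k ≤ 1 →
      ∑ᶠ γ ∈ {γ : ℝ | γ ∈ G ∧ γ ≤ T}, |deriv hardyZ γ| ^ (-(2 * k)) ≤
        C / k * (T * Real.log T ^ ((1 - k) ^ 2))

end Pool.Agent.Lib.MP_6bc78b_nt.MS.QZ
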